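import Pool.Agent.U29.CY.Stm

set_option autoImplicit false

/-!
# Package PER of project CY: the product along a cycle
-/

namespace Pool.Agent.U605.CY

open Finset Pool.Agent.U762.RP Pool.Agent.U29.CY

theorem stp_mul {d : ℕ} {m r : ℤ → ℤ} (h : Rel d m r) (ω : ℤ → ℤ) (y : ℤ) :
    (d : ℤ) * stp d m r ω y = m (y % d) * y - r (y % d) + d * ω y := by
  have hd := h.two_le
  have h1 : 0 ≤ y % (d : ℤ) := Int.emod_nonneg _ (by omega)
  have h2 : y % (d : ℤ) < d := Int.emod_lt_of_pos _ (by omega)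
  have h3 := h.dvd _ h1 h2
  have h4 : (d : ℤ) ∣ m (y % d) * y - r (y % d) := by
    have h5 : (d : ℤ) ∣ m (y % d) * (y - y % d) :=
      Dvd.dvd.mul_left (Int.dvd_self_sub_emod) _
    have h6 : m (y % d) * y - r (y % d) =
        m (y % d) * (y - y % d) + (m (y % d) * (y % d) - r (y % d)) := by ring
    rw [h6]
    exact dvd_add h5 h3
  rw [stp, T, mul_add, Int.mul_ediv_cancel' h4]

theorem one_add_bounds {t e : ℝ} (ht : t ≤ 1 / 2) (he : |e| ≤ t) :
    Real.exp (-(2 * t)) ≤ 1 + e ∧ 1 + e ≤ Real.exp (2 * t) := by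
  have h0 : 0 ≤ t := (abs_nonneg e).trans he
  obtain ⟨h1, h2⟩ := abs_le.1 he
  constructor
  · rw [Real.exp_neg, inv_le_comm₀ (Real.exp_pos _) (by linarith)]
    have h3 : 2 * t + 1 ≤ Real.exp (2 * t) := Real.add_one_le_exp _
    refine le_trans ?_ h3
    rw [inv_le_iff_one_le_mul₀ (by linarith)]
    nlinarith
  · have h3 : 2 * t + 1 ≤ Real.exp (2 * t) := Real.add_one_le_exp _
    linarith

theorem t_PER : S_PER := by
  intro d m r hrel B
  have hd2 := hrel.two_le
  have hd0 : (0 : ℝ) < d := by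
    have : 0 < d := by omega
    exact_mod_cast this
  set R₀ : ℝ := ∑ j ∈ range d, |((r (j : ℤ) : ℤ) : ℝ)| with hR₀
  have hR₀nn : 0 ≤ R₀ := Finset.sum_nonneg fun _ _ => abs_nonneg _
  set C₁ : ℝ := R₀ + d * B + 1 with hC₁
  have hC₁1 : 1 ≤ C₁ := by
    have : (0 : ℝ) ≤ d * B := by positivity
    rw [hC₁]
    linarith
  refine ⟨2 * C₁, 2 * C₁, by linarith, by linarith, ?_⟩
  intro ω hω x n hn hcyc s hs hbig
  have hspos : 0 < s := by linarith
  have hr : ∀ y : ℤ, |((r (y % d) : ℤ) : ℝ)| ≤ R₀ := by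
    intro y
    have h1 : 0 ≤ y % (d : ℤ) := Int.emod_nonneg _ (by omega)
    have h2 : y % (d : ℤ) < d := Int.emod_lt_of_pos _ (by omega)
    obtain ⟨k, hk⟩ := Int.eq_ofNat_of_zero_le h1
    rw [hk] at h2 ⊢
    have : k ∈ range d := by rw [mem_range]; omega
    exact Finset.single_le_sum (f := fun j : ℕ => |((r (j : ℤ) : ℤ) : ℝ)|)
      (fun _ _ => abs_nonneg _) this
  have hm : ∀ y : ℤ, (1 : ℝ) ≤ ((m (y % d) : ℤ) : ℝ) := by
    intro y
    have h1 : 0 ≤ y % (d : ℤ) := Int.emod_nonneg _ (by omega)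
    have h2 : y % (d : ℤ) < d := Int.emod_lt_of_pos _ (by omega)
    have h3 := hrel.pos _ h1 h2
    exact_mod_cast h3
  set X : ℕ → ℤ := fun i => (stp d m r ω)^[i] x with hX
  have hXs : ∀ i, X (i + 1) = stp d m r ω (X i) := fun i => Function.iterate_succ_apply' _ _ _
  have hbig' : ∀ i, i < n → s ≤ |((X i : ℤ) : ℝ)| := hbig
  have hX0 : ∀ i, i < n → ((X i : ℤ) : ℝ) ≠ 0 := by
    intro i hi h0
    have := hbig' i hi
    rw [h0, abs_zero] at this
    linarith
  set e : ℕ → ℝ := fun i => ((d : ℝ) * ω (X i) - r (X i % d)) / (m (X i % d) * X i) with he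
  have hstep : ∀ i, i < n → ((X (i + 1) : ℤ) : ℝ) =
      (((m (X i % d) : ℤ) : ℝ) / d) * (1 + e i) * X i := by
    intro i hi
    have h1 := congrArg (fun z : ℤ => (z : ℝ)) (stp_mul hrel ω (X i))
    simp only [Int.cast_mul, Int.cast_add, Int.cast_sub, Int.cast_natCast] at h1
    have h2 := hX0 i hi
    have h3 : ((m (X i % d) : ℤ) : ℝ) ≠ 0 := by
      have := hm (X i)
      intro h
      rw [h] at this
      linarith
    have h4 : (d : ℝ) ≠ 0 := hd0.ne'
    rw [hXs]
    have h5 : (d : ℝ) * ((stp d m r ω (X i) : ℤ) : ℝ) =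
        d * ((((m (X i % d) : ℤ) : ℝ) / d) * (1 + e i) * X i) := by
      rw [h1, he]
      field_simp
      ring
    exact mul_left_cancel₀ h4 h5
  have hbd : ∀ i, i < n → |e i| ≤ C₁ / s := by
    intro i hi
    have h1 : |(d : ℝ) * ω (X i) - r (X i % d)| ≤ C₁ := by
      have h2 : |((ω (X i) : ℤ) : ℝ)| ≤ B := by
        have := hω (X i)
        exact_mod_cast this
      calc |(d : ℝ) * ω (X i) - r (X i % d)|
          ≤ |(d : ℝ) * ω (X i)| + |((r (X i % d) : ℤ) : ℝ)| := abs_sub _ _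
        _ ≤ d * B + R₀ := by
            refine add_le_add ?_ (hr _)
            rw [abs_mul, abs_of_pos hd0]
            exact mul_le_mul_of_nonneg_left h2 hd0.le
        _ ≤ C₁ := by rw [hC₁]; linarith
    have h3 : s ≤ |((m (X i % d) : ℤ) : ℝ) * X i| := by
      rw [abs_mul, abs_of_pos (by linarith [hm (X i)])]
      calc s = 1 * s := (one_mul s).symm
        _ ≤ _ := mul_le_mul (hm _) (hbig' i hi) hspos.le (by linarith [hm (X i)])
    rw [he, abs_div]
    exact div_le_div₀ (by linarith) h1 hspos h3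
  have ht : C₁ / s ≤ 1 / 2 := by
    rw [div_le_div_iff₀ hspos two_pos]
    linarith
  have htel : ∀ k, k ≤ n → ((X k : ℤ) : ℝ) =
      (∏ i ∈ range k, (((m (X i % d) : ℤ) : ℝ) / d)) * (∏ i ∈ range k, (1 + e i)) * X 0 := by
    intro k
    induction k with
    | zero => intro _; simp
    | succ k ih =>
      intro hk
      rw [hstep k (by omega), ih (by omega), prod_range_succ, prod_range_succ]
      ring
  have hprod : (∏ i ∈ range n, (((m (X i % d) : ℤ) : ℝ) / d)) * (∏ i ∈ range n, (1 + e i)) = 1 := by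
    have h1 := htel n le_rfl
    have h2 : X n = X 0 := hcyc
    rw [h2] at h1
    have h3 := hX0 0 (by omega)
    exact (mul_right_cancel₀ h3 (by rw [one_mul]; exact h1)).symm
  set P : ℝ := ∏ i ∈ range n, (((m (X i % d) : ℤ) : ℝ) / d) with hP
  set W : ℝ := ∏ i ∈ range n, (1 + e i) with hW
  set u : ℝ := 2 * C₁ * n / s with hu
  have hu' : u = n * (2 * (C₁ / s)) := by rw [hu]; ring
  have hW1 : Real.exp (-u) ≤ W := by
    have h1 : Real.exp (-u) = ∏ i ∈ range n, Real.exp (-(2 * (C₁ / s))) := by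
      rw [prod_const, card_range, ← Real.exp_nat_mul, hu']
      congr 1
      ring
    rw [h1]
    exact prod_le_prod (fun i _ => (Real.exp_pos _).le) fun i hi =>
      (one_add_bounds ht (hbd i (mem_range.1 hi))).1
  have hW2 : W ≤ Real.exp u := by
    have h1 : Real.exp u = ∏ i ∈ range n, Real.exp (2 * (C₁ / s)) := by
      rw [prod_const, card_range, ← Real.exp_nat_mul, hu']
    rw [h1]
    refine prod_le_prod (fun i hi => ?_) fun i hi =>
      (one_add_bounds ht (hbd i (mem_range.1 hi))).2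
    exact (Real.exp_pos _).le.trans (one_add_bounds ht (hbd i (mem_range.1 hi))).1
  have hWpos : 0 < W := (Real.exp_pos _).trans_le hW1
  have hPW : P = W⁻¹ := eq_inv_of_mul_eq_one_left hprod
  have hgoal : |P - 1| ≤ Real.exp u - 1 := by
    rw [abs_le]
    constructor
    · have h1 : Real.exp (-u) ≤ P := by
        rw [hPW, Real.exp_neg]
        exact inv_anti₀ hWpos hW2
      have h2 : 2 ≤ Real.exp u + Real.exp (-u) := by
        have h3 := Real.add_one_le_exp u
        have h4 := Real.add_one_le_exp (-u)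
        linarith
      linarith
    · have h1 : P ≤ Real.exp u := by
        rw [hPW, inv_le_comm₀ hWpos (Real.exp_pos _), ← Real.exp_neg]
        exact hW1
      linarith
  exact hgoal

end Pool.Agent.U605.CY
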